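import Pool.Agent.Run7.h222.SU.Stm

/-! Piece BLK of the project SU of helper222 (MP_ca7eb7_al): the two by two block. -/

set_option autoImplicit false

namespace Run7.h382.SU

open Matrix Run7.h222.SU

theorem mat2 {a b c d a' b' c' d' : ℂ} (h1 : a = a') (h2 : b = b') (h3 : c = c') (h4 : d = d') :
    !![a, b; c, d] = !![a', b'; c', d'] := by
  subst_vars; rfl

theorem diag2 (x y : ℂ) : Matrix.diagonal ![x, y] = !![x, 0; 0, y] := by
  ext i j
  fin_cases i <;> fin_cases j <;> simp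

theorem conjT2 (a b c d : ℂ) : (!![a, b; c, d])ᴴ = !![star a, star c; star b, star d] := by
  ext i j
  fin_cases i <;> fin_cases j <;> simp

theorem t_BLK : S_BLK := by
  intro l1 l2 k1 k2 f g w hl1 hl2 hk1 hk2 hf hg hdet hw0 hw1 htr
  obtain ⟨a, ha⟩ : ∃ a : ℂ, a = ((Real.sqrt w : ℝ) : ℂ) := ⟨_, rfl⟩
  obtain ⟨b, hb⟩ : ∃ b : ℂ, b = ((Real.sqrt (1 - w) : ℝ) : ℂ) := ⟨_, rfl⟩
  have haa : a * a = w := by
    rw [ha, ← Complex.ofReal_mul, Real.mul_self_sqrt hw0]
  have hbb : b * b = 1 - w := by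
    rw [hb, ← Complex.ofReal_mul, Real.mul_self_sqrt (by linarith)]
    push_cast; ring
  have hsa : star a = a := by rw [ha]; exact Complex.conj_ofReal _
  have hsb : star b = b := by rw [hb]; exact Complex.conj_ofReal _
  obtain ⟨U, hU⟩ : ∃ U : Matrix (Fin 2) (Fin 2) ℂ, U = !![a, -b; b, a] := ⟨_, rfl⟩
  have hUH : Uᴴ = !![a, b; -b, a] := by rw [hU, conjT2, star_neg, hsa, hsb]
  have hU1 : Uᴴ * U = 1 := by
    rw [hUH, hU, Matrix.mul_fin_two, Matrix.one_fin_two]
    exact mat2 (by linear_combination haa + hbb) (by ring) (by ring)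
      (by linear_combination haa + hbb)
  have hU2 : U * Uᴴ = 1 := mul_eq_one_comm.mp hU1
  obtain ⟨L, hL⟩ : ∃ L : Matrix (Fin 2) (Fin 2) ℂ, L = Matrix.diagonal ![l1, l2] := ⟨_, rfl⟩
  obtain ⟨D, hD⟩ : ∃ D : Matrix (Fin 2) (Fin 2) ℂ, D = Matrix.diagonal ![f, g] := ⟨_, rfl⟩
  have hLL : L * Lᴴ = 1 := by
    rw [hL, diag2, conjT2, Matrix.mul_fin_two, Matrix.one_fin_two]
    exact mat2 (by rw [star_zero]; linear_combination hl1) (by rw [star_zero]; ring) (by rw [star_zero]; ring)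
      (by rw [star_zero]; linear_combination hl2)
  have hDD : Dᴴ * D = 1 := by
    rw [hD, diag2, conjT2, Matrix.mul_fin_two, Matrix.one_fin_two]
    exact mat2 (by rw [star_zero]; linear_combination hf) (by rw [star_zero]; ring) (by rw [star_zero]; ring)
      (by rw [star_zero]; linear_combination hg)
  obtain ⟨R, hR⟩ : ∃ R : Matrix (Fin 2) (Fin 2) ℂ, R = U * L * Uᴴ := ⟨_, rfl⟩
  have hRR : R * Rᴴ = 1 := by
    rw [hR]
    simp only [Matrix.conjTranspose_mul, Matrix.conjTranspose_conjTranspose]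
    calc U * L * Uᴴ * (U * (Lᴴ * Uᴴ)) = U * (L * ((Uᴴ * U) * (Lᴴ * Uᴴ))) := by
          simp only [Matrix.mul_assoc]
      _ = U * ((L * Lᴴ) * Uᴴ) := by rw [hU1, Matrix.one_mul, Matrix.mul_assoc L]
      _ = 1 := by rw [hLL, Matrix.one_mul, hU2]
  obtain ⟨M, hM⟩ : ∃ M : Matrix (Fin 2) (Fin 2) ℂ, M = Rᴴ * D := ⟨_, rfl⟩
  have hMM : Mᴴ * M = 1 := by
    rw [hM, Matrix.conjTranspose_mul, Matrix.conjTranspose_conjTranspose]
    calc Dᴴ * R * (Rᴴ * D) = Dᴴ * ((R * Rᴴ) * D) := by simp only [Matrix.mul_assoc]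
      _ = 1 := by rw [hRR, Matrix.one_mul, hDD]
  -- explicit form
  have hRe : R = !![w * l1 + (1 - w) * l2, a * b * (l1 - l2); a * b * (l1 - l2),
      (1 - w) * l1 + w * l2] := by
    rw [hR, hUH, hU, hL, diag2, Matrix.mul_fin_two, Matrix.mul_fin_two]
    exact mat2 (by linear_combination l1 * haa + l2 * hbb) (by ring) (by ring)
      (by linear_combination l1 * hbb + l2 * haa)
  have hsw : star (w : ℂ) = w := Complex.conj_ofReal _
  have hMe : M = !![(w * star l1 + (1 - w) * star l2) * f, (a * b * (star l1 - star l2)) * g;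
      (a * b * (star l1 - star l2)) * f, ((1 - w) * star l1 + w * star l2) * g] := by
    rw [hM, hRe, conjT2, hD, diag2, Matrix.mul_fin_two]
    simp only [star_add, star_mul, star_sub, star_one, hsw, hsa, hsb]
    exact mat2 (by ring) (by ring) (by ring) (by ring)
  have htrM : M.trace = k1 + k2 := by
    rw [hMe, Matrix.trace_fin_two_of, htr]; ring
  have hdetM : M.det = k1 * k2 := by
    rw [hMe, Matrix.det_fin_two_of]
    have h1 : ((w * star l1 + (1 - w) * star l2) * f) * (((1 - w) * star l1 + w * star l2) * g) -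
        ((a * b * (star l1 - star l2)) * g) * ((a * b * (star l1 - star l2)) * f) =
        (star l1 * star l2) * (f * g) := by
      linear_combination (-(star l1 - star l2) ^ 2 * (f * g) * (b * b)) * haa +
        (-(star l1 - star l2) ^ 2 * (f * g) * w) * hbb
    rw [h1, ← hdet]
    linear_combination (k1 * k2 * (star l2 * l2)) * hl1 + (k1 * k2) * hl2
  obtain ⟨P, z, hP1, hP2, hMP, -⟩ := Pool.Agent.H16.SUn.diagonalise hMM
  have htrz : z 0 + z 1 = k1 + k2 := by
    rw [← htrM, hMP, Matrix.trace_mul_comm, ← Matrix.mul_assoc, hP1, Matrix.one_mul,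
      Matrix.trace_fin_two]
    simp
  have hdetz : z 0 * z 1 = k1 * k2 := by
    have h1 : P.det * (Pᴴ).det = 1 := by rw [← Matrix.det_mul, hP2, Matrix.det_one]
    rw [← hdetM, hMP, Matrix.det_mul, Matrix.det_mul, Matrix.det_diagonal, Fin.prod_univ_two]
    linear_combination (-(z 0 * z 1)) * h1
  have hRM : D = R * M := by
    rw [hM, ← Matrix.mul_assoc, hRR, Matrix.one_mul]
  have hz : Matrix.diagonal z = !![z 0, 0; 0, z 1] := by
    ext i j
    fin_cases i <;> fin_cases j <;> simp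
  have hcase : (z 0 - k1) * (z 0 - k2) = 0 := by
    linear_combination (z 0) * htrz - hdetz
  rcases mul_eq_zero.1 hcase with h | h
  · refine ⟨U, P, hU1, hU2, hP1, hP2, ?_⟩
    have h0 : z 0 = k1 := by linear_combination h
    have h1 : z 1 = k2 := by linear_combination htrz - h
    rw [← hL, ← hR, ← hD, diag2, ← h0, ← h1, ← hz, ← hMP]
    exact hRM
  · have h0 : z 0 = k2 := by linear_combination h
    have h1 : z 1 = k1 := by linear_combination htrz - h
    obtain ⟨S, hS⟩ : ∃ S : Matrix (Fin 2) (Fin 2) ℂ, S = !![0, 1; 1, 0] := ⟨_, rfl⟩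
    have hSH : Sᴴ = !![0, 1; 1, 0] := by rw [hS, conjT2, star_zero, star_one]
    have hSS : S * Sᴴ = 1 := by
      rw [hSH, hS, Matrix.mul_fin_two, Matrix.one_fin_two]
      exact mat2 (by ring) (by ring) (by ring) (by ring)
    have hSS' : Sᴴ * S = 1 := mul_eq_one_comm.mp hSS
    have hSd : S * Matrix.diagonal ![k1, k2] * Sᴴ = Matrix.diagonal z := by
      rw [hSH, hS, diag2, hz, Matrix.mul_fin_two, Matrix.mul_fin_two]
      exact mat2 (by rw [h0]; ring) (by ring) (by ring) (by rw [h1]; ring)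
    refine ⟨U, P * S, hU1, hU2, ?_, ?_, ?_⟩
    · rw [Matrix.conjTranspose_mul]
      calc Sᴴ * Pᴴ * (P * S) = Sᴴ * ((Pᴴ * P) * S) := by simp only [Matrix.mul_assoc]
        _ = 1 := by rw [hP1, Matrix.one_mul, hSS']
    · rw [Matrix.conjTranspose_mul]
      calc P * S * (Sᴴ * Pᴴ) = P * ((S * Sᴴ) * Pᴴ) := by simp only [Matrix.mul_assoc]
        _ = 1 := by rw [hSS, Matrix.one_mul, hP2]
    · rw [← hL, ← hR, ← hD, Matrix.conjTranspose_mul]
      have h2 : P * S * Matrix.diagonal ![k1, k2] * (Sᴴ * Pᴴ) = M := by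
        calc P * S * Matrix.diagonal ![k1, k2] * (Sᴴ * Pᴴ)
            = P * (S * Matrix.diagonal ![k1, k2] * Sᴴ) * Pᴴ := by simp only [Matrix.mul_assoc]
          _ = M := by rw [hSd, ← hMP]
      rw [h2]
      exact hRM

end Run7.h382.SU
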